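import Pool.Agent.TH847.TP.All

/-!
# MP_7f59f9_nt: a bound `log log x - C` does not suffice, and `S_B` may come closer than that

Notation, from `Pool.Agent.TH847.TP.Def`: `AB B` is the set of the positive integers without a divisor in
`B`; `SB B x` is the sum of `1 / b` over `b ∈ B`, `b < x`; `TransProp A` says that for every `n ≥ 1` there is
`t ≥ 1` with `a ∈ A ↔ a + t ∈ A` for `1 ≤ a ≤ n`.
-/

set_option autoImplicit false

namespace Pool.Agent.Results.MP_7f59f9_nt.ConstantGap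

open Pool.Agent.TH847.TP

theorem result :
    -- no bound `S_B(x) ≤ log log x - C` implies the translation property
    (∀ C : ℝ, ∃ B : Set ℕ, (∀ b ∈ B, b.Prime) ∧
      (∃ X0 : ℕ, ∀ x : ℕ, X0 ≤ x → SB B x ≤ Real.log (Real.log x) - C) ∧ ¬ TransProp (AB B)) ∧
    -- sets of primes with `S_B(x) ≥ log log x - f(x)`, `f` as slow as one likes, can have the property
    (∀ f : ℕ → ℝ, Filter.Tendsto f Filter.atTop Filter.atTop → ∃ B : Set ℕ, (∀ b ∈ B, b.Prime) ∧
      (∃ X0 : ℕ, ∀ x : ℕ, X0 ≤ x → Real.log (Real.log x) - f x ≤ SB B x) ∧ TransProp (AB B)) := by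
  refine ⟨?_, ?_⟩
  · intro C
    obtain ⟨F, _, h1, h2⟩ := neg C
    exact ⟨coF F, fun b hb => hb.1, h2, h1⟩
  · intro f hf
    obtain ⟨B, h1, h2, h3⟩ := pos_of_window windows f hf
    exact ⟨B, h1, h3, h2⟩

end Pool.Agent.Results.MP_7f59f9_nt.ConstantGap
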