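import Pool.Agent.TH847.TP.All

/-!
# MP_7f59f9_nt: light windows, and small values of `S_B(x) / log log x`, imply the translation property

Notation, from `Pool.Agent.TH847.TP.Def`: `AB B` is the set of the positive integers without a divisor in
`B`; `SB B x` is the sum of `1 / b` over `b ∈ B`, `b < x`; `PairCop B` says that `B` consists of positive
integers and is pairwise coprime; `Transl A n t` says `t ≥ 1` and `a ∈ A ↔ a + t ∈ A` for `1 ≤ a ≤ n`;
`TransProp A` says that every `n ≥ 1` has a `t` with `Transl A n t`.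

The proof sieves the translations `t = Q (v + 1)`, `v < x ^ r`, `Q = (w!) ^ 2`, by the primes of `B` between
`w` and `x` (fundamental lemma).  The members of `B` in the window and the composite members remove few of
the survivors, because of the mass; the primes beyond the window remove few because, if such a prime
divides `a + t`, then the quotient is small and composed of primes outside `B` or beyond `x`, and the survivors
with a given quotient are sieved again, in a long range.
-/

set_option autoImplicit false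

namespace Pool.Agent.Results.MP_7f59f9_nt.SparseWindows

open Pool.Agent.TH847.TP

theorem result :
    -- one light window `[x, x ^ s)` gives a translation, not above `x ^ s`
    (∀ n : ℕ, 1 ≤ n → ∃ s K : ℕ, 2 ≤ s ∧ ∃ ε : ℝ, 0 < ε ∧ ∀ B : Set ℕ, PairCop B → ∀ x : ℕ, K ≤ x →
      SB B (x ^ s) - SB B x ≤ ε → ∃ t : ℕ, t ≤ x ^ s ∧ Transl (AB B) n t) ∧
    -- so does one `x` with `S_B(x) ≤ c log log x`, for a constant `c` that depends on `n`
    (∀ n : ℕ, 1 ≤ n → ∃ c : ℝ, 0 < c ∧ ∃ K : ℕ, ∀ B : Set ℕ, PairCop B → ∀ x : ℕ, K ≤ x →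
      SB B x ≤ c * Real.log (Real.log x) → ∃ t : ℕ, t ≤ x ∧ Transl (AB B) n t) ∧
    -- `liminf S_B(x) / log log x = 0` implies the translation property
    (∀ B : Set ℕ, PairCop B → (∀ c : ℝ, 0 < c → ∀ X0 : ℕ, ∃ x : ℕ, X0 ≤ x ∧
      SB B x ≤ c * Real.log (Real.log x)) → TransProp (AB B)) ∧
    -- light windows of every length imply the translation property
    (∀ B : Set ℕ, PairCop B → (∀ s : ℕ, ∀ ε : ℝ, 0 < ε → ∀ X0 : ℕ, ∃ x : ℕ, X0 ≤ x ∧
      SB B (x ^ s) - SB B x ≤ ε) → TransProp (AB B)) := by
  refine ⟨windows, ?_, ?_, ?_⟩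
  · intro n hn
    obtain ⟨s, K, hs, ε, hε, h⟩ := windows n hn
    exact loglog_of_window n s K ε hs hε h
  · intro B hB hl n hn
    obtain ⟨s, K, hs, ε, hε, h⟩ := windows n hn
    obtain ⟨c, hc, K', h'⟩ := loglog_of_window n s K ε hs hε h
    obtain ⟨x, hx, hS⟩ := hl c hc K'
    obtain ⟨t, _, ht⟩ := h' B hB x hx hS
    exact ⟨t, ht⟩
  · intro B hB hl n hn
    obtain ⟨s, K, hs, ε, hε, h⟩ := windows n hn
    obtain ⟨x, hx, hS⟩ := hl s ε hε K
    obtain ⟨t, _, ht⟩ := h B hB x hx hS
    exact ⟨t, ht⟩

end Pool.Agent.Results.MP_7f59f9_nt.SparseWindows
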